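import Pool.Agent.N110.CC.HRes

/-!
The rational hull of the nef cone of finite images of varieties with an abelian group of
pseudo-automorphisms of maximal rank.
-/

set_option autoImplicit false

open FF Pool.Agent.W602.GT Pool.Agent.Y172 Pool.Agent.R887 Pool.Agent.N110 Pool.Agent.N110.CC

/-- Let `X'` be a normal projective variety of dimension `n ≥ 1`, with generic point `y'`. Let the
vectors `c' P` be the classes of the prime divisors in `N¹(X') = ℤ ^ (r + 1)`, `r ≥ 1` (if `X'` is
`ℚ`-factorial then `r + 1` is the Picard number of `X'`). Let `ℤ ^ r` act on `X'` by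
pseudo-automorphisms `f_v`, given by the automorphisms `φ v = f_v^*` of the function field, and
suppose that `f_v` has positive entropy (the first dynamical degree is greater than `1`) for all
`v ≠ 0`. So the rank of the group is the Picard number of `X'` minus one.

Let `X' → X` be a finite morphism onto a normal projective variety `X`, for instance `X = X'` or a
quotient by a finite group, given by the homomorphism `π` of the function fields (more generally, a
rational map which is a finite morphism in codimension one). The morphism has nothing to do with the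
maps `f_v`. Let the vectors `c P` be the classes of the prime divisors of `X` in `N¹(X) = ℤ ^ ρ`.

Then every rational class in the closed effective cone of `X` is zero or in the interior of the
effective cone (it is big). So the cones `Nef(X)⁺` and `Mov(X)⁺` generated by the rational nef
classes, respectively the rational movable classes, consist of effective classes:
`Nef(X)⁺ ⊆ Nef(X) ∩ Eff(X)` and `Mov(X)⁺ ⊆ Mov(X) ∩ Eff(X)`. -/
theorem Pool.Agent.Results.MP_e49dc9_ag.RationalHull.result
    {K K' : Type} [Field K] [Algebra ℂ K] [Field K'] [Algebra ℂ K'] {N N' n r ρ : ℕ}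
    {y : Fin (N + 1) → K} {y' : Fin (N' + 1) → K'} (hy : NormalModel y) (hy' : NormalModel y')
    (hn : Algebra.trdeg ℂ K = n) (hn' : Algebra.trdeg ℂ K' = n) (hn0 : 0 < n) (hr : 0 < r)
    {c' : Place ℂ K' → Fin (r + 1) → ℤ} (hc' : PicardBasis y' c')
    {φ : (Fin r → ℤ) → (K' ≃ₐ[ℂ] K')} (hφ : ∀ u v, φ (u + v) = φ u * φ v)
    (hps : ∀ v, PseudoAut (φ v) y') (hent : ∀ v, v ≠ 0 → 1 < dynDegree (φ v) y' n 1)
    {π : K →ₐ[ℂ] K'} (hπ : FiniteMap π y y') {c : Place ℂ K → Fin ρ → ℤ} (hc : PicardBasis y c) :
    (∀ x ∈ closure (effCone y c), (∀ i, ∃ q : ℚ, x i = q) → x = 0 ∨ x ∈ interior (effCone y c)) ∧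
      ratHull (nefCone y n c) ⊆ nefCone y n c ∩ effCone y c ∧
      ratHull (movCone y c) ⊆ movCone y c ∩ effCone y c :=
  hull_img hy hy' hn hn' hn0 hr hc' hφ hps hent hπ hc
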